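import Mathlib
import Pool.Agent.X170.Shang.Defs
import Pool.Agent.X170.Shang.Lower
import Pool.Agent.X170.Shang.Num
import Pool.Agent.X170.Shang.Exist

/-!
# Shang's conjecture `[Alt(V)] = a(V)` on the free alternative algebras fails for `dim V ≥ 9`
-/

set_option autoImplicit false

namespace Pool.Agent.Results.MP_9e3efc_al.MultilinearNine

open Pool.Agent.X170.Shang

/-- For `dim V = d ≥ 9` the equations defining `(a(V), b(V))` have exactly one solution `(a, b)`,
and `a` is not the class of the free alternative algebra `Alt(V)`: its coefficient at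
`x_1 ⋯ x_9` is `336364 < 9! ≤ dim Alt(V)_{(1,…,1)}`. -/
theorem result (k : Type*) [Field k] [CharZero k] (d : ℕ) (hd : 9 ≤ d) :
    ∃ a b : MvPowerSeries (Fin d) ℤ, Solves a b ∧
      (∀ a' b' : MvPowerSeries (Fin d) ℤ, Solves a' b' → a' = a ∧ b' = b) ∧
      a ≠ clsAlt k d := by
  refine ⟨solA, solB, solves_sol, fun a' b' h => solves_unique _ _ _ _ h solves_sol, ?_⟩
  intro hab
  have h1 := factorial_le k 8 (Fin.castLEEmb hd)
  have h2 := ((main solA solB solves_sol 9 le_rfl (Finset.univ.map (Fin.castLEEmb hd))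
    (by simp)).2 (by simp)).1
  rw [hab] at h2
  rw [h2] at h1
  have h3 : al 9 = 336364 := rfl
  rw [h3] at h1
  norm_num [Nat.factorial] at h1

end Pool.Agent.Results.MP_9e3efc_al.MultilinearNine
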